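import Mathlib

/-!
Configurations in which a block of consecutive vertices is still undetermined, and the step which
places further vertices.
-/

set_option autoImplicit false

namespace Pool.Agent.helper890_cut

open Finset

/-- `a` agrees with `b` outside the block `[l, u]` and takes values in `X` on the block -/
def Adm (X : Finset ℕ) (l u : ℕ) (b a : ℕ → ℕ) : Prop :=
  (∀ i, l ≤ i → i ≤ u → a i ∈ X) ∧ (∀ i, ¬ (l ≤ i ∧ i ≤ u) → a i = b i)

/-- the `J` largest gaps are placed in colour `c`; the remaining ones form the block `[l, u)` and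
their vertices are to be chosen in `X` -/
structure PE {q : ℕ} (N t : ℕ) (rk : ℕ → ℕ) (f : ℕ → ℕ → Fin q) (c : Fin q) (J : ℕ)
    (X : Finset ℕ) (l u : ℕ) (b : ℕ → ℕ) : Prop where
  lu : l ≤ u
  ut : u < t
  act : ∀ g, g + 1 < t → (J ≤ rk g ↔ l ≤ g ∧ g < u)
  lt : ∀ a, Adm X l u b a → ∀ i, i < t → a i < N
  sep : ∀ a, Adm X l u b a → ∀ g, g + 1 < t → ¬ (l ≤ g ∧ g < u) →
    a g < a (g + 1) ∧ ∀ x ∈ X, ∀ y ∈ X, y < x + (a (g + 1) - a g)
  ord : ∀ a, Adm X l u b a → ∀ g g', g + 1 < t → g' + 1 < t → ¬ (l ≤ g ∧ g < u) →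
    ¬ (l ≤ g' ∧ g' < u) → rk g < rk g' → a (g' + 1) - a g' < a (g + 1) - a g
  col : ∀ a, Adm X l u b a → ∀ i j, i < j → j < t → ¬ (l ≤ i ∧ j ≤ u) → f (a i) (a j) = c

theorem Adm.mono {X X' : Finset ℕ} {l u : ℕ} {b a : ℕ → ℕ} (h : Adm X' l u b a) (hX : X' ⊆ X) :
    Adm X l u b a := ⟨fun i h1 h2 => hX (h.1 i h1 h2), h.2⟩

theorem PE.mono {q N t : ℕ} {rk : ℕ → ℕ} {f : ℕ → ℕ → Fin q} {c : Fin q} {J : ℕ}
    {X X' : Finset ℕ} {l u : ℕ} {b : ℕ → ℕ} (h : PE N t rk f c J X l u b) (hX : X' ⊆ X) :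
    PE N t rk f c J X' l u b where
  lu := h.lu
  ut := h.ut
  act := h.act
  lt := fun a ha => h.lt a (ha.mono hX)
  sep := fun a ha g hg hn => ⟨(h.sep a (ha.mono hX) g hg hn).1,
    fun x hx y hy => (h.sep a (ha.mono hX) g hg hn).2 x (hX hx) y (hX hy)⟩
  ord := fun a ha => h.ord a (ha.mono hX)
  col := fun a ha => h.col a (ha.mono hX)

/-- differences of points in separated windows -/
theorem win {y0 E A B z w : ℕ} (hAB : A < B)
    (hz : y0 + 4 * A * E ≤ z ∧ z < y0 + 4 * A * E + E)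
    (hw : y0 + 4 * B * E ≤ w ∧ w < y0 + 4 * B * E + E) :
    z < w ∧ (4 * (B - A) - 1) * E < w - z ∧ w - z < (4 * (B - A) + 1) * E := by
  obtain ⟨d, rfl⟩ : ∃ d, B = A + (d + 1) := ⟨B - A - 1, by omega⟩
  have h1 : A + (d + 1) - A = d + 1 := by omega
  have h2 : 4 * (d + 1) - 1 = 4 * d + 3 := by omega
  rw [h1, h2]
  have h3 : 4 * (A + (d + 1)) * E = 4 * A * E + 4 * (d * E) + 4 * E := by ring
  have h4 : (4 * d + 3) * E = 4 * (d * E) + 3 * E := by ring
  have h5 : (4 * (d + 1) + 1) * E = 4 * (d * E) + 5 * E := by ring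
  rw [h3] at hw
  rw [h4, h5]
  omega

theorem PE.step {q N t : ℕ} {rk : ℕ → ℕ} {f : ℕ → ℕ → Fin q} {c : Fin q} {J : ℕ}
    {X : Finset ℕ} {l u : ℕ} {b : ℕ → ℕ} (h : PE N t rk f c J X l u b)
    {J' l' u' r M y0 E : ℕ} (hl : l ≤ l') (hlu : l' ≤ u') (hu : u' ≤ u)
    (act' : ∀ g, g + 1 < t → (J' ≤ rk g ↔ l' ≤ g ∧ g < u')) (hr : (l' - l) + (u - u') ≤ r)
    (hE : 0 < E) (Xw : ℕ → Finset ℕ) (hXw : ∀ m, m < M → Xw m ⊆ X)
    (hwin : ∀ m, m < M → ∀ z ∈ Xw m, y0 + 4 * m * E ≤ z ∧ z < y0 + 4 * m * E + E)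
    (m x : ℕ → ℕ) (X' : Finset ℕ) (hX' : X' ⊆ Xw (m (l' - l)))
    (hm : ∀ i, i < r → m i < m (i + 1)) (hM : ∀ i, i ≤ r → m i < M)
    (hx : ∀ i, i ≤ r → x i ∈ Xw (m i))
    (hord : ∀ i j, i < r → j < r → rk (if i < l' - l then l + i else u' + (i - (l' - l))) <
      rk (if j < l' - l then l + j else u' + (j - (l' - l))) → m (j + 1) - m j < m (i + 1) - m i)
    (hcol : ∀ z ∈ X', ∀ i j, i < j → j ≤ r →
      f (if i = l' - l then z else x i) (if j = l' - l then z else x j) = c) :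
    PE N t rk f c J' X' l' u'
      (fun i => if l ≤ i ∧ i ≤ u then (if i < l' then x (i - l) else x ((i - u') + (l' - l))) else b i) := by
  set k := l' - l with hk
  set b' : ℕ → ℕ := fun i => if l ≤ i ∧ i ≤ u then (if i < l' then x (i - l) else x ((i - u') + k)) else b i
    with hb'
  -- contracted index
  set κ : ℕ → ℕ := fun i => if i < l' then i - l else if i ≤ u' then k else (i - u') + k with hκ
  have hκ1 : ∀ i, i < l' → κ i = i - l := fun i hi => by simp only [hκ]; rw [if_pos hi]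
  have hκ2 : ∀ i, l' ≤ i → i ≤ u' → κ i = k := fun i hi hi' => by
    simp only [hκ]; rw [if_neg (by omega), if_pos hi']
  have hκ3 : ∀ i, u' < i → κ i = (i - u') + k := fun i hi => by
    simp only [hκ]; rw [if_neg (by omega), if_neg (by omega)]
  have hκr : ∀ i, l ≤ i → i ≤ u → κ i ≤ r := by
    intro i h1 h2
    rcases lt_or_ge i l' with h3 | h3
    · rw [hκ1 i h3]; omega
    · rcases le_or_gt i u' with h4 | h4
      · rw [hκ2 i h3 h4]; omega
      · rw [hκ3 i h4]; omega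
  have hkr : k ≤ r := by omega
  have hX'X : X' ⊆ X := hX'.trans (hXw _ (hM k hkr))
  -- values of an admissible map on the old block
  have hval : ∀ a, Adm X' l' u' b' a → ∀ i, l ≤ i → i ≤ u → ¬ (l' ≤ i ∧ i ≤ u') →
      a i = x (κ i) ∧ κ i ≠ k := by
    intro a ha i h1 h2 h3
    have h4 := ha.2 i h3
    simp only [hb'] at h4
    rw [if_pos ⟨h1, h2⟩] at h4
    rcases lt_or_ge i l' with h5 | h5
    · rw [if_pos h5] at h4
      rw [hκ1 i h5]
      exact ⟨h4, by omega⟩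
    · rw [if_neg (by omega)] at h4
      rw [hκ3 i (by omega)]
      exact ⟨h4, by omega⟩
  have hmem : ∀ a, Adm X' l' u' b' a → ∀ i, l ≤ i → i ≤ u → a i ∈ Xw (m (κ i)) := by
    intro a ha i h1 h2
    by_cases h3 : l' ≤ i ∧ i ≤ u'
    · rw [hκ2 i h3.1 h3.2]
      exact hX' (ha.1 i h3.1 h3.2)
    · rw [(hval a ha i h1 h2 h3).1]
      exact hx _ (hκr i h1 h2)
  have hadm : ∀ a, Adm X' l' u' b' a → Adm X l u b a := by
    intro a ha
    refine ⟨fun i h1 h2 => hXw _ (hM _ (hκr i h1 h2)) (hmem a ha i h1 h2), ?_⟩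
    intro i hi
    have h4 := ha.2 i (by omega)
    simp only [hb'] at h4
    rw [if_neg hi] at h4
    exact h4
  -- a new gap
  have hnew : ∀ g, l ≤ g → g < u → ¬ (l' ≤ g ∧ g < u') → κ g < r ∧ κ (g + 1) = κ g + 1 ∧
      (if κ g < k then l + κ g else u' + (κ g - k)) = g := by
    intro g h1 h2 h3
    rcases lt_or_ge g l' with h5 | h5
    · have h6 : κ (g + 1) = g + 1 - l := by
        rcases lt_or_ge (g + 1) l' with h7 | h7
        · exact hκ1 _ h7
        · rw [hκ2 (g + 1) h7 (by omega)]; omega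
      rw [h6, hκ1 g h5, if_pos (by omega)]
      omega
    · have h6 : κ g = (g - u') + k := by
        rcases le_or_gt g u' with h7 | h7
        · rw [hκ2 g h5 h7]; omega
        · exact hκ3 g h7
      rw [hκ3 (g + 1) (by omega), h6, if_neg (by omega)]
      omega
  have hgapw : ∀ a, Adm X' l' u' b' a → ∀ g, l ≤ g → g < u → ¬ (l' ≤ g ∧ g < u') →
      a g < a (g + 1) ∧ (4 * (m (κ g + 1) - m (κ g)) - 1) * E < a (g + 1) - a g ∧
      a (g + 1) - a g < (4 * (m (κ g + 1) - m (κ g)) + 1) * E := by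
    intro a ha g h1 h2 h3
    obtain ⟨h4, h5, _⟩ := hnew g h1 h2 h3
    have h6 := hmem a ha g h1 (by omega)
    have h7 := hmem a ha (g + 1) (by omega) (by omega)
    rw [h5] at h7
    exact win (hm _ h4) (hwin _ (hM _ (by omega)) _ h6) (hwin _ (hM _ (by omega)) _ h7)
  refine ⟨hlu, lt_of_le_of_lt hu h.ut, act', ?_, ?_, ?_, ?_⟩
  · intro a ha
    exact h.lt a (hadm a ha)
  · intro a ha g hg hn
    by_cases h1 : l ≤ g ∧ g < u
    · obtain ⟨h2, h3, h4⟩ := hgapw a ha g h1.1 h1.2 hn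
      refine ⟨h2, ?_⟩
      intro x1 hx1 y1 hy1
      have h5 := hwin _ (hM k hkr) x1 (hX' hx1)
      have h6 := hwin _ (hM k hkr) y1 (hX' hy1)
      have h7 := hm _ (hnew g h1.1 h1.2 hn).1
      have h8 : 1 * E ≤ (4 * (m (κ g + 1) - m (κ g)) - 1) * E := Nat.mul_le_mul_right _ (by omega)
      omega
    · have h2 := h.sep a (hadm a ha) g hg h1
      exact ⟨h2.1, fun x1 hx1 y1 hy1 => h2.2 x1 (hX'X hx1) y1 (hX'X hy1)⟩
  · intro a ha g g' hg hg' hn hn' hrk
    by_cases h1 : l ≤ g ∧ g < u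
    · by_cases h1' : l ≤ g' ∧ g' < u
      · obtain ⟨h2, h3, h4⟩ := hgapw a ha g h1.1 h1.2 hn
        obtain ⟨h2', h3', h4'⟩ := hgapw a ha g' h1'.1 h1'.2 hn'
        obtain ⟨h5, _, h6⟩ := hnew g h1.1 h1.2 hn
        obtain ⟨h5', _, h6'⟩ := hnew g' h1'.1 h1'.2 hn'
        have h7 := hord (κ g) (κ g') h5 h5' (by rw [h6, h6']; exact hrk)
        have h8 : (4 * (m (κ g' + 1) - m (κ g')) + 1) * E ≤ (4 * (m (κ g + 1) - m (κ g)) - 1) * E :=
          Nat.mul_le_mul_right _ (by omega)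
        omega
      · exfalso
        have h2 := (h.act g hg).2 h1
        have h3 : ¬ J ≤ rk g' := fun h4 => h1' ((h.act g' hg').1 h4)
        omega
    · by_cases h1' : l ≤ g' ∧ g' < u
      · have h2 := h.sep a (hadm a ha) g hg h1
        have h3 := h2.2 (a g') ((hadm a ha).1 g' h1'.1 h1'.2.le) (a (g' + 1))
          ((hadm a ha).1 (g' + 1) (by omega) (by omega))
        have h4 := (hgapw a ha g' h1'.1 h1'.2 hn').1
        omega
      · exact h.ord a (hadm a ha) g g' hg hg' h1 h1' hrk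
  · intro a ha i j hij hj hn
    by_cases h1 : l ≤ i ∧ j ≤ u
    · have hκlt : κ i < κ j := by
        rcases lt_or_ge i l' with h2 | h2
        · rw [hκ1 i h2]
          rcases lt_or_ge j l' with h3 | h3
          · rw [hκ1 j h3]; omega
          · rcases le_or_gt j u' with h4 | h4
            · rw [hκ2 j h3 h4]; omega
            · rw [hκ3 j h4]; omega
        · rw [hκ3 j (by omega)]
          rcases le_or_gt i u' with h4 | h4
          · rw [hκ2 i h2 h4]; omega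
          · rw [hκ3 i h4]; omega
      have hjr := hκr j (by omega) h1.2
      by_cases h2 : l' ≤ i ∧ i ≤ u'
      · have h3 := hcol (a i) (ha.1 i h2.1 h2.2) (κ i) (κ j) hκlt hjr
        have h4 := hval a ha j (by omega) h1.2 (by omega)
        rw [if_pos (hκ2 i h2.1 h2.2), if_neg h4.2, ← h4.1] at h3
        exact h3
      · have h4 := hval a ha i h1.1 (by omega) h2
        by_cases h5 : l' ≤ j ∧ j ≤ u'
        · have h3 := hcol (a j) (ha.1 j h5.1 h5.2) (κ i) (κ j) hκlt hjr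
          rw [if_neg h4.2, if_pos (hκ2 j h5.1 h5.2), ← h4.1] at h3
          exact h3
        · have h6 := hval a ha j (by omega) h1.2 h5
          have h3 := hcol (a l') (ha.1 l' le_rfl hlu) (κ i) (κ j) hκlt hjr
          rw [if_neg h4.2, if_neg h6.2, ← h4.1, ← h6.1] at h3
          exact h3
    · exact h.col a (hadm a ha) i j hij hj h1

end Pool.Agent.helper890_cut
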