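import Pool.Agent.helper890_cut.Super
import Pool.Agent.helper890_cut.Step

/-!
The density argument: at every scale either the density increases or a bounded number of further
gaps is placed in one of the colours.
-/

set_option autoImplicit false

namespace Pool.Agent.helper890_cut

open Finset

/-- a full monochromatic configuration -/
def Sol {q : ℕ} (N t : ℕ) (rk : ℕ → ℕ) (f : ℕ → ℕ → Fin q) : Prop :=
  ∃ a : ℕ → ℕ, ∃ c : Fin q, (∀ i, i + 1 < t → a i < a (i + 1)) ∧ (∀ i, i < t → a i < N) ∧
    (∀ i j, i < j → j < t → f (a i) (a j) = c) ∧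
    (∀ g g', g + 1 < t → g' + 1 < t → rk g < rk g' → a (g' + 1) - a g' < a (g + 1) - a g)

theorem theta_one (Q : ℝ) (hQ : 0 < Q) :
    (Q - 1) * ((2 * Q + 1) / (2 * Q ^ 2)) ≤ 1 - 1 / (2 * Q) := by
  have h4 : (1 - 1 / (2 * Q) - (Q - 1) * ((2 * Q + 1) / (2 * Q ^ 2))) = 1 / (2 * Q ^ 2) := by
    field_simp
    ring
  rw [← sub_nonneg, h4]
  positivity

theorem theta_two (Q : ℝ) (hQ : 4 ≤ Q) : ((2 * Q + 1) / (2 * Q ^ 2)) * Q ≤ 2 := by
  have h0 : 0 < Q := by linarith
  have h7 : (2 * Q + 1) / (2 * Q ^ 2) * Q = (2 * Q + 1) / (2 * Q) := by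
    field_simp
  rw [h7, div_le_iff₀ (by positivity)]
  linarith

theorem theta_three (Q x : ℝ) (hQ : 0 < Q) : x = 2 * Q * (x * (1 / (2 * Q))) := by
  field_simp

/-- a configuration in which all gaps are placed gives a solution -/
theorem PE.finish {q N t : ℕ} {rk : ℕ → ℕ} {f : ℕ → ℕ → Fin q} {c : Fin q} {J : ℕ}
    {X : Finset ℕ} {l u : ℕ} {b : ℕ → ℕ} (h : PE N t rk f c J X l u b) (hX : X.Nonempty)
    (hrk : ∀ g, g + 1 < t → rk g < t - 1) (hJ : t - 1 ≤ J) : Sol N t rk f := by
  obtain ⟨x, hx⟩ := hX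
  have hlu : l = u := by
    rcases Nat.lt_or_ge l u with h1 | h1
    · exfalso
      have h2 := h.ut
      have h3 := (h.act l (by omega)).2 ⟨le_rfl, h1⟩
      have h4 := hrk l (by omega)
      omega
    · exact le_antisymm h.lu h1
  have hadm : Adm X l u b (fun i => if l ≤ i ∧ i ≤ u then x else b i) := by
    constructor
    · intro i h1 h2
      show (if l ≤ i ∧ i ≤ u then x else b i) ∈ X
      rw [if_pos ⟨h1, h2⟩]; exact hx
    · intro i h1
      show (if l ≤ i ∧ i ≤ u then x else b i) = b i
      rw [if_neg h1]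
  refine ⟨_, c, ?_, h.lt _ hadm, ?_, ?_⟩
  · intro i hi
    exact (h.sep _ hadm i hi (by omega)).1
  · intro i j hij hj
    exact h.col _ hadm i j hij hj (by omega)
  · intro g g' hg hg' hr
    exact h.ord _ hadm g g' hg hg' (by omega) (by omega) hr

theorem main_step {q r M K : ℕ} (hq : 0 < q) (hM : 0 < M) (hK : 0 < K)
    (hsup : ∀ (ρ : Fin q → ℕ → ℕ) (k : Fin q → ℕ), (∀ c, k c ≤ r) → ∀ (f : ℕ → ℕ → Fin q)
      (X : ℕ → Finset ℕ), (∀ m, m < M → (X m).Nonempty) →
      ∃ c : Fin q, ∃ m x : ℕ → ℕ, ∃ X' : Finset ℕ, X' ⊆ X (m (k c)) ∧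
        (X (m (k c))).card ≤ X'.card * K ∧ (∀ i, i < r → m i < m (i + 1)) ∧
        (∀ i, i ≤ r → m i < M) ∧ (∀ i, i ≤ r → x i ∈ X (m i)) ∧
        (∀ i j, i < r → j < r → ρ c i < ρ c j → m (j + 1) - m j < m (i + 1) - m i) ∧
        (∀ z ∈ X', ∀ i j, i < j → j ≤ r →
          f (if i = k c then z else x i) (if j = k c then z else x j) = c))
    {N t : ℕ} {rk : ℕ → ℕ} {f : ℕ → ℕ → Fin q} (hrk : ∀ g, g + 1 < t → rk g < t - 1)
    (hnext : ∀ J l u, J < t - 1 → l ≤ u → u < t → (∀ g, g + 1 < t → (J ≤ rk g ↔ l ≤ g ∧ g < u)) →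
      ∃ J' l' u', J < J' ∧ l ≤ l' ∧ l' ≤ u' ∧ u' ≤ u ∧ (l' - l) + (u - u') ≤ r ∧
        (∀ g, g + 1 < t → (J' ≤ rk g ↔ l' ≤ g ∧ g < u'))) :
    ∀ (w : ℕ) (X : Finset ℕ) (y0 : ℕ), (∀ z ∈ X, y0 ≤ z ∧ z < y0 + (4 * M) ^ w) →
      ∀ (J l u : Fin q → ℕ) (b : Fin q → ℕ → ℕ),
        (∀ c, PE N t rk f c (J c) X (l c) (u c) (b c)) →
        ((4 * K : ℕ) : ℝ) ^ (∑ c, (t - 1 - J c)) ≤
          X.card * ((2 * (4 * M : ℕ) + 1) / (2 * (4 * M : ℕ) ^ 2) : ℝ) ^ w →
        Sol N t rk f := by
  classical
  set Q := 4 * M with hQ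
  have hQ0 : 0 < Q := by omega
  have hQR : (4 : ℝ) ≤ (Q : ℝ) := by
    have : 4 ≤ Q := by omega
    exact_mod_cast this
  set θ : ℝ := (2 * (Q : ℝ) + 1) / (2 * (Q : ℝ) ^ 2) with hθ
  have hθ0 : 0 < θ := by positivity
  have hKR : (1 : ℝ) ≤ (K : ℝ) := by exact_mod_cast hK
  intro w
  induction w with
  | zero =>
    intro X y0 hX J l u b hPE hpot
    have hXne : X.Nonempty := by
      rw [Finset.nonempty_iff_ne_empty]
      intro h1
      rw [h1, Finset.card_empty, Nat.cast_zero, zero_mul] at hpot
      have : (0 : ℝ) < ((4 * K : ℕ) : ℝ) ^ (∑ c, (t - 1 - J c)) := by positivity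
      linarith
    by_cases hfin : ∃ c, t - 1 ≤ J c
    · obtain ⟨c, hc⟩ := hfin
      exact (hPE c).finish hXne hrk hc
    · exfalso
      push Not at hfin
      have h1 : X.card ≤ 1 := by
        have h2 : X ⊆ {y0} := by
          intro z hz
          have := hX z hz
          rw [pow_zero] at this
          rw [Finset.mem_singleton]
          omega
        exact (Finset.card_le_card h2).trans (by simp)
      have h3 : 1 ≤ ∑ c, (t - 1 - J c) := by
        have h4 : t - 1 - J ⟨0, hq⟩ ≤ ∑ c, (t - 1 - J c) :=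
          Finset.single_le_sum (f := fun c => t - 1 - J c) (fun c _ => Nat.zero_le _)
            (Finset.mem_univ (⟨0, hq⟩ : Fin q))
        have h5 := hfin ⟨0, hq⟩
        omega
      have h4 : (4 : ℝ) ≤ ((4 * K : ℕ) : ℝ) := by
        push_cast; linarith
      have h5 : ((4 * K : ℕ) : ℝ) ^ 1 ≤ ((4 * K : ℕ) : ℝ) ^ (∑ c, (t - 1 - J c)) :=
        pow_le_pow_right₀ (by linarith) h3
      have h6 : (X.card : ℝ) ≤ 1 := by exact_mod_cast h1
      rw [pow_one] at h5
      rw [pow_zero, mul_one] at hpot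
      linarith
  | succ w ih =>
    intro X y0 hX J l u b hPE hpot
    have hXne : X.Nonempty := by
      rw [Finset.nonempty_iff_ne_empty]
      intro h1
      rw [h1, Finset.card_empty, Nat.cast_zero, zero_mul] at hpot
      have : (0 : ℝ) < ((4 * K : ℕ) : ℝ) ^ (∑ c, (t - 1 - J c)) := by positivity
      linarith
    by_cases hfin : ∃ c, t - 1 ≤ J c
    · obtain ⟨c, hc⟩ := hfin
      exact (hPE c).finish hXne hrk hc
    push Not at hfin
    have hcard0 : (0 : ℝ) < X.card := by exact_mod_cast Finset.card_pos.2 hXne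
    set E := Q ^ w with hE
    have hE0 : 0 < E := by positivity
    set S : ℕ → Finset ℕ := fun m => X.filter (fun z => y0 + m * E ≤ z ∧ z < y0 + m * E + E) with hS
    have hSX : ∀ m, S m ⊆ X := fun m => Finset.filter_subset _ _
    have hSw : ∀ m, ∀ z ∈ S m, y0 + m * E ≤ z ∧ z < y0 + m * E + E := fun m z hz =>
      (Finset.mem_filter.1 hz).2
    by_cases hA : ∃ m, (X.card : ℝ) * θ ≤ (S m).card
    · obtain ⟨m, hm⟩ := hA
      refine ih (S m) (y0 + m * E) (hSw m) J l u b (fun c => (hPE c).mono (hSX m)) ?_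
      calc ((4 * K : ℕ) : ℝ) ^ (∑ c, (t - 1 - J c)) ≤ X.card * θ ^ (w + 1) := hpot
        _ = (X.card * θ) * θ ^ w := by ring
        _ ≤ (S m).card * θ ^ w := mul_le_mul_of_nonneg_right hm (by positivity)
    · push Not at hA
      -- all windows are dense
      have hsum : X.card = ∑ m ∈ Finset.range Q, (S m).card := by
        have h1 : ∀ z ∈ X, (z - y0) / E ∈ Finset.range Q := by
          intro z hz
          have h2 := hX z hz
          rw [Finset.mem_range, Nat.div_lt_iff_lt_mul hE0]
          have h3 : Q ^ (w + 1) = Q * E := by rw [hE, pow_succ, mul_comm]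
          rw [h3] at h2
          omega
        rw [Finset.card_eq_sum_card_fiberwise h1]
        refine Finset.sum_congr rfl ?_
        intro m _
        congr 1
        ext z
        simp only [hS, Finset.mem_filter]
        constructor
        · rintro ⟨h2, h3⟩
          have h4 := hX z h2
          refine ⟨h2, ?_⟩
          have h5 : (z - y0) / E * E ≤ z - y0 := Nat.div_mul_le_self _ _
          have h6 : z - y0 < ((z - y0) / E + 1) * E := by
            rw [← Nat.div_lt_iff_lt_mul hE0]; omega
          rw [h3] at h5 h6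
          rw [add_mul, one_mul] at h6
          omega
        · rintro ⟨h2, h3, h4⟩
          have h5 := hX z h2
          refine ⟨h2, ?_⟩
          apply Nat.div_eq_of_lt_le
          · omega
          · rw [Nat.succ_mul]; omega
      have hdense : ∀ m, m < Q → (X.card : ℝ) ≤ 2 * Q * (S m).card := by
        intro m hm
        have h1 : (X.card : ℝ) = (S m).card + ∑ m' ∈ (Finset.range Q).erase m, ((S m').card : ℝ) := by
          rw [hsum, Nat.cast_sum, ← Finset.add_sum_erase _ _ (Finset.mem_range.2 hm)]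
        have h2 : ∑ m' ∈ (Finset.range Q).erase m, ((S m').card : ℝ) ≤
            ∑ m' ∈ (Finset.range Q).erase m, (X.card : ℝ) * θ :=
          Finset.sum_le_sum (fun m' _ => (hA m').le)
        rw [Finset.sum_const, Finset.card_erase_of_mem (Finset.mem_range.2 hm), Finset.card_range,
          nsmul_eq_mul, Nat.cast_sub hQ0, Nat.cast_one] at h2
        have h3 : ((Q : ℝ) - 1) * θ ≤ 1 - 1 / (2 * Q) := theta_one _ (by linarith)
        have h5 : (X.card : ℝ) * (((Q : ℝ) - 1) * θ) ≤ X.card * (1 - 1 / (2 * Q)) :=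
          mul_le_mul_of_nonneg_left h3 hcard0.le
        have h6 : (X.card : ℝ) * (1 / (2 * Q)) ≤ (S m).card := by
          nlinarith
        exact (theta_three (Q : ℝ) (X.card : ℝ) (by linarith)).le.trans
          (mul_le_mul_of_nonneg_left h6 (by positivity))
      -- the next cuts
      choose J' l' u' hJ1 hl1 hlu1 hu1 hr1 hact1 using fun c : Fin q =>
        hnext (J c) (l c) (u c) (hfin c) (hPE c).lu (hPE c).ut (hPE c).act
      set Xw : ℕ → Finset ℕ := fun m => S (4 * m) with hXw
      have hne : ∀ m, m < M → (Xw m).Nonempty := by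
        intro m hm
        have h1 := hdense (4 * m) (by omega)
        rw [Finset.nonempty_iff_ne_empty]
        intro h2
        simp only [hXw] at h2
        rw [h2, Finset.card_empty, Nat.cast_zero, mul_zero] at h1
        linarith
      obtain ⟨c, m, x, X', hX', hcard, hm, hmM, hx, hord, hcol⟩ := hsup
        (fun c i => rk (if i < l' c - l c then l c + i else u' c + (i - (l' c - l c))))
        (fun c => l' c - l c) (fun c => by
          show l' c - l c ≤ r
          have := hr1 c; omega) f Xw hne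
      have hstep := (hPE c).step (J' := J' c) (l' := l' c) (u' := u' c) (r := r) (M := M) (y0 := y0)
        (E := E) (hl1 c) (hlu1 c) (hu1 c) (hact1 c) (hr1 c) hE0 Xw (fun m _ => hSX _)
        (fun m _ z hz => hSw _ z hz) m x X' hX' hm hmM hx hord hcol
      have hX'X : X' ⊆ X := hX'.trans (hSX _)
      have hmk : m (l' c - l c) < M := hmM _ (by have := hr1 c; omega)
      refine ih X' (y0 + (4 * m (l' c - l c)) * E) (fun z hz => hSw _ z (hX' hz))
        (Function.update J c (J' c)) (Function.update l c (l' c)) (Function.update u c (u' c))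
        (Function.update b c (fun i => if l c ≤ i ∧ i ≤ u c then
          (if i < l' c then x (i - l c) else x ((i - u' c) + (l' c - l c))) else b c i)) ?_ ?_
      · intro d
        by_cases hd : d = c
        · subst hd
          simp only [Function.update_self]
          exact hstep
        · simp only [Function.update_of_ne hd]
          exact (hPE d).mono hX'X
      · have h1 : ∑ d, (t - 1 - Function.update J c (J' c) d) + 1 ≤ ∑ d, (t - 1 - J d) := by
          rw [← Finset.add_sum_erase _ _ (Finset.mem_univ c),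
            ← Finset.add_sum_erase _ (fun d => t - 1 - J d) (Finset.mem_univ c),
            Function.update_self]
          have h2 : ∑ d ∈ Finset.univ.erase c, (t - 1 - Function.update J c (J' c) d) =
              ∑ d ∈ Finset.univ.erase c, (t - 1 - J d) := by
            refine Finset.sum_congr rfl ?_
            intro d hd
            rw [Function.update_of_ne (Finset.ne_of_mem_erase hd)]
          rw [h2]
          have h3 := hJ1 c
          have h4 := hfin c
          have h5 : t - 1 - J' c + 1 ≤ t - 1 - J c := by omega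
          show t - 1 - J' c + _ + 1 ≤ t - 1 - J c + _
          omega
        have h4K : (1 : ℝ) ≤ ((4 * K : ℕ) : ℝ) := by push_cast; linarith
        have h2 : ((4 * K : ℕ) : ℝ) ^ (∑ d, (t - 1 - Function.update J c (J' c) d)) * (4 * K) ≤
            X.card * θ ^ (w + 1) := by
          calc ((4 * K : ℕ) : ℝ) ^ (∑ d, (t - 1 - Function.update J c (J' c) d)) * (4 * K)
              = ((4 * K : ℕ) : ℝ) ^ (∑ d, (t - 1 - Function.update J c (J' c) d) + 1) := by
                rw [pow_succ]; push_cast; ring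
            _ ≤ ((4 * K : ℕ) : ℝ) ^ (∑ d, (t - 1 - J d)) := pow_le_pow_right₀ h4K h1
            _ ≤ X.card * θ ^ (w + 1) := hpot
        have h3 := hdense (4 * m (l' c - l c)) (by omega)
        have h4 : ((S (4 * m (l' c - l c))).card : ℝ) ≤ X'.card * K := by exact_mod_cast hcard
        have h5 : (X.card : ℝ) ≤ 2 * Q * (X'.card * K) := h3.trans
          (mul_le_mul_of_nonneg_left h4 (by positivity))
        have h6 : θ * Q ≤ 2 := theta_two _ hQR
        have h7 : (X.card : ℝ) * θ ^ (w + 1) ≤ X'.card * θ ^ w * (4 * K) := by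
          calc (X.card : ℝ) * θ ^ (w + 1) ≤ 2 * Q * (X'.card * K) * θ ^ (w + 1) :=
                mul_le_mul_of_nonneg_right h5 (by positivity)
            _ = (θ * Q) * (2 * (X'.card * K) * θ ^ w) := by ring
            _ ≤ 2 * (2 * (X'.card * K) * θ ^ w) := mul_le_mul_of_nonneg_right h6 (by positivity)
            _ = X'.card * θ ^ w * (4 * K) := by ring
        have h8 : (0 : ℝ) < 4 * K := by positivity
        exact le_of_mul_le_mul_right (h2.trans h7) h8

end Pool.Agent.helper890_cut
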