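import Pool.Agent.helper890_cut.Main

/-!
The next stage at which the remaining gaps form a block.
-/

set_option autoImplicit false

namespace Pool.Agent.helper890_cut

open Finset Pool.Agent.helper890_gap

theorem card_rem {t : ℕ} {rk : ℕ → ℕ} (hrk : GoodRk t rk) (J : ℕ) :
    ((Finset.range (t - 1)).filter (fun g => J ≤ rk g)).card = t - 1 - J := by
  have hI : (Finset.Ico J (t - 1)).card = t - 1 - J := Nat.card_Ico _ _
  rw [← hI]
  rw [← Finset.card_image_of_injOn (s := (Finset.range (t - 1)).filter (fun g => J ≤ rk g)) (f := rk)]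
  · congr 1
    ext k
    rw [Finset.mem_image, Finset.mem_Ico]
    constructor
    · rintro ⟨g, hg, rfl⟩
      rw [Finset.mem_filter, Finset.mem_range] at hg
      have := hrk.lt g (by omega)
      omega
    · rintro ⟨h1, h2⟩
      obtain ⟨g, hg1, hg2⟩ := hrk.surj k (by omega)
      refine ⟨g, ?_, hg2⟩
      rw [Finset.mem_filter, Finset.mem_range]
      omega
  · intro g hg g' hg' h
    simp only [Finset.coe_filter, Finset.mem_range, Set.mem_ofPred_eq] at hg hg'
    exact hrk.inj g g' (by omega) (by omega) h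

theorem card_act {t : ℕ} {rk : ℕ → ℕ} (hrk : GoodRk t rk) {J l u : ℕ} (hlu : l ≤ u) (hu : u < t)
    (hact : ∀ g, g + 1 < t → (J ≤ rk g ↔ l ≤ g ∧ g < u)) : u - l = t - 1 - J := by
  have hI : (Finset.Ico l u).card = u - l := Nat.card_Ico _ _
  rw [← card_rem hrk J, ← hI]
  congr 1
  ext g
  rw [Finset.mem_filter, Finset.mem_range, Finset.mem_Ico]
  constructor
  · intro h
    exact ⟨by omega, (hact g (by omega)).2 h⟩
  · rintro ⟨h1, h2⟩
    exact (hact g (by omega)).1 h2

theorem next_cut {t r : ℕ} {rk : ℕ → ℕ} (hrk : GoodRk t rk)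
    (hcut : ∀ k, k < t - 1 → ∃ k', k < k' ∧ k' ≤ k + r ∧ ∀ x y z, x < y → y < z → z + 1 < t →
      k' ≤ rk x → k' ≤ rk z → k' ≤ rk y)
    (J l u : ℕ) (hJ : J < t - 1) (hlu : l ≤ u) (hu : u < t)
    (hact : ∀ g, g + 1 < t → (J ≤ rk g ↔ l ≤ g ∧ g < u)) :
    ∃ J' l' u', J < J' ∧ l ≤ l' ∧ l' ≤ u' ∧ u' ≤ u ∧ (l' - l) + (u - u') ≤ r ∧
        (∀ g, g + 1 < t → (J' ≤ rk g ↔ l' ≤ g ∧ g < u')) := by
  obtain ⟨J', h1, h2, h3⟩ := hcut J hJ
  have hc := card_act hrk hlu hu hact
  set R := (Finset.range (t - 1)).filter (fun g => J' ≤ rk g) with hR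
  have hRc : R.card = t - 1 - J' := card_rem hrk J'
  rcases R.eq_empty_or_nonempty with he | hne
  · rw [he, Finset.card_empty] at hRc
    refine ⟨J', l, l, h1, le_rfl, le_rfl, hlu, by omega, ?_⟩
    intro g hg
    constructor
    · intro h4
      exfalso
      have h5 : g ∈ R := by
        rw [hR, Finset.mem_filter, Finset.mem_range]
        exact ⟨by omega, h4⟩
      rw [he] at h5
      exact absurd h5 (Finset.notMem_empty _)
    · intro h4
      omega
  · have hmin := R.min'_mem hne
    have hmax := R.max'_mem hne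
    have hle := R.min'_le _ hmax
    have hmem : ∀ g, g ∈ R → g < t - 1 ∧ J' ≤ rk g := by
      intro g hg
      rw [hR, Finset.mem_filter, Finset.mem_range] at hg
      exact hg
    replace hmin := hmem _ hmin
    replace hmax := hmem _ hmax
    have hact' : ∀ g, g + 1 < t → (J' ≤ rk g ↔ R.min' hne ≤ g ∧ g < R.max' hne + 1) := by
      intro g hg
      constructor
      · intro h4
        have h5 : g ∈ R := by
          rw [hR, Finset.mem_filter, Finset.mem_range]
          exact ⟨by omega, h4⟩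
        exact ⟨R.min'_le _ h5, Nat.lt_succ_of_le (R.le_max' _ h5)⟩
      · rintro ⟨h4, h5⟩
        rcases eq_or_lt_of_le h4 with h6 | h6
        · rw [← h6]; exact hmin.2
        · rcases eq_or_lt_of_le (Nat.lt_succ_iff.1 h5) with h7 | h7
          · rw [h7]; exact hmax.2
          · exact h3 _ g _ h6 h7 (by omega) hmin.2 hmax.2
    have h4 := (hact (R.min' hne) (by omega)).1 (by omega)
    have h5 := (hact (R.max' hne) (by omega)).1 (by omega)
    have hc' := card_act hrk (by omega : R.min' hne ≤ R.max' hne + 1) (by omega) hact'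
    exact ⟨J', R.min' hne, R.max' hne + 1, h1, h4.1, by omega, by omega, by omega, hact'⟩

end Pool.Agent.helper890_cut
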