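import Pool.Agent.Results.MP_4cb405_co.FewLocalMinima

/-!
The finite Ramsey theorem for gap orders, in terms of a rank function.
-/

set_option autoImplicit false

namespace Pool.Agent.helper890_cut

open Finset

/-- finite Ramsey theorem for gap orders: the gaps of the clique decrease when `h` increases -/
theorem fin_ramsey (q : ℕ) (hq : 0 < q) (n : ℕ) : ∃ M : ℕ, 0 < M ∧ ∀ h : ℕ → ℕ, ∀ f : ℕ → ℕ → Fin q,
      ∃ a : ℕ → ℕ, ∃ c : Fin q, (∀ i, i < n → a i < a (i + 1)) ∧ (∀ i, i ≤ n → a i < M) ∧
        (∀ i j, i < j → j ≤ n → f (a i) (a j) = c) ∧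
        (∀ i j, i < n → j < n → h i < h j → a (j + 1) - a j < a (i + 1) - a i) := by
  obtain ⟨c, hc⟩ := Pool.Agent.Results.MP_4cb405_co.FewLocalMinima.result q hq n
  refine ⟨2 ^ (c * (n + 1)), by positivity, ?_⟩
  intro h f
  set g : Fin (n + 1 - 1) → ℕ := fun i => h i with hg
  set π := Tuple.sort g with hπ
  have hmono : Monotone (g ∘ π) := Tuple.monotone_sort g
  obtain ⟨a, col, h1, h2, h3, h4⟩ := hc (n + 1) (Nat.succ_pos n) π (by
    refine (Finset.card_le_univ _).trans ?_
    rw [Fintype.card_fin]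
    omega) _ le_rfl f
  refine ⟨a, col, fun i hi => h1 i (by omega), fun i hi => h2 i (by omega),
    fun i j hij hj => h3 i j hij (by omega), ?_⟩
  intro i j hi hj hij
  set i' : Fin (n + 1 - 1) := ⟨i, by omega⟩ with hi'
  set j' : Fin (n + 1 - 1) := ⟨j, by omega⟩ with hj'
  have hlt : π.symm i' < π.symm j' := by
    by_contra hcon
    push Not at hcon
    have h5 := hmono hcon
    simp only [Function.comp_apply, Equiv.apply_symm_apply] at h5
    simp only [hg, hi', hj'] at h5
    omega
  have h6 := h4 _ _ hlt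
  rw [Equiv.apply_symm_apply, Equiv.apply_symm_apply] at h6
  exact h6

end Pool.Agent.helper890_cut
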