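import Pool.Agent.helper890_cut.Ram

/-!
Supersaturation: among sets placed in sufficiently many windows some label of monochromatic
cliques persists for a positive proportion of the points of one window.
-/

set_option autoImplicit false

namespace Pool.Agent.helper890_cut

open Finset

/-- averaging over one coordinate of a box -/
theorem exists_fibre {M : ℕ} {L : Type} [DecidableEq L] [Fintype L] (X : Fin M → Finset ℕ)
    (hX : ∀ m, (X m).Nonempty) (label : (Fin M → ℕ) → L) (K : ℕ) (hK : Fintype.card L ≤ K)
    (μ : L → Fin M) :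
    ∃ lam : L, ∃ y ∈ Fintype.piFinset X, (X (μ lam)).card ≤
      ((X (μ lam)).filter (fun z => label (Function.update y (μ lam) z) = lam)).card * K := by
  classical
  set Y := Fintype.piFinset X with hY
  have hYne : Y.Nonempty := by
    rw [hY, Fintype.piFinset_nonempty]
    exact hX
  have hYpos : 0 < Y.card := Finset.card_pos.2 hYne
  -- a frequent label
  obtain ⟨lam, hlam⟩ : ∃ lam : L, Y.card ≤ (Y.filter (fun y => label y = lam)).card * K := by
    by_contra hcon
    push Not at hcon
    have h1 : Y.card = ∑ lam : L, (Y.filter (fun y => label y = lam)).card :=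
      Finset.card_eq_sum_card_fiberwise (fun y _ => Finset.mem_univ _)
    obtain ⟨y0, _⟩ := hYne
    have h2 : ∑ lam : L, (Y.filter (fun y => label y = lam)).card * K < ∑ lam : L, Y.card :=
      Finset.sum_lt_sum_of_nonempty ⟨label y0, Finset.mem_univ _⟩ (fun lam _ => hcon lam)
    rw [← Finset.sum_mul, ← h1, Finset.sum_const, Finset.card_univ, smul_eq_mul] at h2
    have h3 : Fintype.card L * Y.card ≤ K * Y.card := Nat.mul_le_mul_right _ hK
    rw [mul_comm Y.card K] at h2
    omega
  refine ⟨lam, ?_⟩
  by_contra hcon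
  push Not at hcon
  have h1 : ((Y ×ˢ X (μ lam)).filter
      (fun p => label (Function.update p.1 (μ lam) p.2) = lam)).card =
      ∑ y ∈ Y, ((X (μ lam)).filter (fun z => label (Function.update y (μ lam) z) = lam)).card := by
    rw [Finset.card_filter, Finset.sum_product]
    refine Finset.sum_congr rfl ?_
    intro y _
    rw [Finset.card_filter]
  have h2 : ((Y ×ˢ X (μ lam)).filter
      (fun p => label (Function.update p.1 (μ lam) p.2) = lam)).card =
      ((Y.filter (fun y => label y = lam)) ×ˢ X (μ lam)).card := by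
    refine Finset.card_nbij' (fun p => (Function.update p.1 (μ lam) p.2, p.1 (μ lam)))
      (fun p => (Function.update p.1 (μ lam) p.2, p.1 (μ lam))) ?_ ?_ ?_ ?_
    · intro p hp
      simp only [Finset.coe_filter, Finset.mem_product, Set.mem_ofPred_eq] at hp
      obtain ⟨⟨hp1, hp2⟩, hp3⟩ := hp
      simp only [Finset.coe_product, Set.mem_prod, Finset.mem_coe, Finset.mem_filter]
      rw [hY, Fintype.mem_piFinset] at hp1
      refine ⟨⟨?_, hp3⟩, hp1 _⟩
      rw [hY, Fintype.mem_piFinset]
      intro m
      by_cases hm : m = μ lam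
      · rw [hm, Function.update_self]; exact hp2
      · rw [Function.update_of_ne hm]; exact hp1 m
    · intro p hp
      simp only [Finset.coe_product, Set.mem_prod, Finset.mem_coe, Finset.mem_filter] at hp
      obtain ⟨⟨hp1, hp3⟩, hp2⟩ := hp
      simp only [Finset.coe_filter, Finset.mem_product, Set.mem_ofPred_eq]
      rw [hY, Fintype.mem_piFinset] at hp1
      refine ⟨⟨?_, hp1 _⟩, ?_⟩
      · rw [hY, Fintype.mem_piFinset]
        intro m
        by_cases hm : m = μ lam
        · rw [hm, Function.update_self]; exact hp2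
        · rw [Function.update_of_ne hm]; exact hp1 m
      · rw [Function.update_idem, Function.update_eq_self]; exact hp3
    · intro p _
      simp only [Function.update_idem, Function.update_self]
      rw [Function.update_eq_self]
    · intro p _
      simp only [Function.update_idem, Function.update_self]
      rw [Function.update_eq_self]
  rw [h1, Finset.card_product] at h2
  have h3 : ∑ y ∈ Y, ((X (μ lam)).filter
      (fun z => label (Function.update y (μ lam) z) = lam)).card * K < ∑ y ∈ Y, (X (μ lam)).card :=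
    Finset.sum_lt_sum_of_nonempty hYne (fun y hy => hcon y hy)
  rw [← Finset.sum_mul, h2, Finset.sum_const, smul_eq_mul] at h3
  have h4 : Y.card * (X (μ lam)).card ≤
      (Y.filter (fun y => label y = lam)).card * K * (X (μ lam)).card := Nat.mul_le_mul_right _ hlam
  have h5 : (Y.filter (fun y => label y = lam)).card * (X (μ lam)).card * K =
      (Y.filter (fun y => label y = lam)).card * K * (X (μ lam)).card := by ring
  omega

/-- supersaturated finite Ramsey theorem for gap orders -/
theorem super (q r : ℕ) (hq : 0 < q) : ∃ M K : ℕ, 0 < M ∧ 0 < K ∧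
    ∀ (ρ : Fin q → ℕ → ℕ) (k : Fin q → ℕ), (∀ c, k c ≤ r) → ∀ (f : ℕ → ℕ → Fin q)
      (X : ℕ → Finset ℕ), (∀ m, m < M → (X m).Nonempty) →
      ∃ c : Fin q, ∃ m x : ℕ → ℕ, ∃ X' : Finset ℕ, X' ⊆ X (m (k c)) ∧
        (X (m (k c))).card ≤ X'.card * K ∧ (∀ i, i < r → m i < m (i + 1)) ∧
        (∀ i, i ≤ r → m i < M) ∧ (∀ i, i ≤ r → x i ∈ X (m i)) ∧
        (∀ i j, i < r → j < r → ρ c i < ρ c j → m (j + 1) - m j < m (i + 1) - m i) ∧
        (∀ z ∈ X', ∀ i j, i < j → j ≤ r →
          f (if i = k c then z else x i) (if j = k c then z else x j) = c) := by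
  classical
  obtain ⟨M, hM, hR⟩ := fin_ramsey q hq (q * r)
  refine ⟨M, Fintype.card (Fin q × (Fin (r + 1) → Fin M)), hM, ?_, ?_⟩
  · have : Nonempty (Fin q) := ⟨⟨0, hq⟩⟩
    have : Nonempty (Fin M) := ⟨⟨0, hM⟩⟩
    exact Fintype.card_pos
  intro ρ k hk f X hX
  set h : ℕ → ℕ := fun g => if hg : g / r < q then ρ ⟨g / r, hg⟩ (g % r) else 0 with hh
  have hhv : ∀ (c : Fin q) (i : ℕ), i < r → h ((c : ℕ) * r + i) = ρ c i := by
    intro c i hi
    have h1 : ((c : ℕ) * r + i) / r = c := by
      rw [mul_comm, Nat.mul_add_div (by omega), Nat.div_eq_of_lt hi, add_zero]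
    have h2 : ((c : ℕ) * r + i) % r = i := by
      rw [mul_comm, Nat.mul_add_mod, Nat.mod_eq_of_lt hi]
    simp only [hh]
    rw [dif_pos (by rw [h1]; exact c.2), h2]
    congr 1
    exact Fin.ext h1
  set ext : (Fin M → ℕ) → ℕ → ℕ := fun s a => if ha : a < M then s ⟨a, ha⟩ else 0 with hext
  choose a col h1 h2 h3 h4 using fun s : Fin M → ℕ => hR h (fun a b => f (ext s a) (ext s b))
  have hidx : ∀ (c : Fin q) (i : ℕ), i ≤ r → (c : ℕ) * r + i ≤ q * r := by
    intro c i hi
    have h5 : ((c : ℕ) + 1) * r ≤ q * r := Nat.mul_le_mul_right _ c.2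
    rw [add_mul, one_mul] at h5
    omega
  set label : (Fin M → ℕ) → Fin q × (Fin (r + 1) → Fin M) := fun s =>
    (col s, fun p => ⟨a s ((col s : ℕ) * r + p), h2 s _ (hidx _ _ (Nat.lt_succ_iff.1 p.2))⟩)
    with hlabel
  obtain ⟨lam, y, hy, hcard⟩ := exists_fibre (fun m : Fin M => X m) (fun m => hX m m.2) label _ le_rfl
    (fun lam => lam.2 ⟨k lam.1, Nat.lt_succ_of_le (hk lam.1)⟩)
  obtain ⟨c, α⟩ := lam
  simp only at hcard
  set μ := α ⟨k c, Nat.lt_succ_of_le (hk c)⟩ with hμ
  rw [Fintype.mem_piFinset] at hy
  set X' := (X (μ : ℕ)).filter (fun z => label (Function.update y μ z) = (c, α)) with hX'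
  set m : ℕ → ℕ := fun i => if hi : i < r + 1 then (α ⟨i, hi⟩ : Fin M) else 0 with hm
  have hmv : ∀ (i : ℕ) (hi : i < r + 1), m i = (α ⟨i, hi⟩ : Fin M) := by
    intro i hi
    simp only [hm]
    rw [dif_pos hi]
  have hmk : m (k c) = μ := hmv _ _
  -- the properties of a map with this label
  have hlab : ∀ s, label s = (c, α) → col s = c ∧ ∀ i, i < r + 1 → a s ((c : ℕ) * r + i) = m i := by
    intro s hs
    have h5 : col s = c := congrArg Prod.fst hs
    refine ⟨h5, ?_⟩
    intro i hi
    have h6 := congrFun (congrArg Prod.snd hs) ⟨i, hi⟩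
    simp only [hlabel] at h6
    rw [hmv i hi, ← h6, ← h5]
  have hne : X'.Nonempty := by
    rw [Finset.nonempty_iff_ne_empty]
    intro h5
    rw [h5, Finset.card_empty, zero_mul] at hcard
    exact absurd (Finset.card_pos.2 (hX μ μ.2)) (by omega)
  obtain ⟨z0, hz0⟩ := hne
  obtain ⟨hc0, ha0⟩ := hlab _ (Finset.mem_filter.1 hz0).2
  have hmlt : ∀ i, i < r → m i < m (i + 1) := by
    intro i hi
    have h5 := h1 (Function.update y μ z0) ((c : ℕ) * r + i) (by
      have := hidx c (i + 1) (by omega)
      omega)
    rw [ha0 i (by omega), add_assoc, ha0 (i + 1) (by omega)] at h5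
    exact h5
  have hmono : ∀ i j, i < j → j ≤ r → m i < m j := by
    intro i j hij
    induction j with
    | zero => exact absurd hij (Nat.not_lt_zero _)
    | succ j ih =>
      intro hj
      rcases Nat.lt_succ_iff_lt_or_eq.1 hij with h5 | h5
      · exact (ih h5 (by omega)).trans (hmlt j (by omega))
      · rw [h5]; exact hmlt j (by omega)
  have hmM : ∀ i, i ≤ r → m i < M := by
    intro i hi
    rw [hmv i (by omega)]
    exact (α _).2
  refine ⟨c, m, fun i => ext y (m i), X', ?_, ?_, hmlt, hmM, ?_, ?_, ?_⟩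
  · rw [hmk]; exact Finset.filter_subset _ _
  · rw [hmk]; exact hcard
  · intro i hi
    simp only [hext]
    rw [dif_pos (hmM i hi)]
    exact hy ⟨m i, hmM i hi⟩
  · intro i j hi hj hij
    have h5 := h4 (Function.update y μ z0) ((c : ℕ) * r + i) ((c : ℕ) * r + j) (by
      have := hidx c (i + 1) (by omega)
      omega) (by
      have := hidx c (j + 1) (by omega)
      omega) (by rw [hhv c i hi, hhv c j hj]; exact hij)
    have h6 := ha0 (i + 1) (by omega)
    have h7 := ha0 (j + 1) (by omega)
    rw [← add_assoc] at h6 h7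
    rw [ha0 i (by omega), h6, ha0 j (by omega), h7] at h5
    exact h5
  · intro z hz i j hij hj
    obtain ⟨hc1, ha1⟩ := hlab _ (Finset.mem_filter.1 hz).2
    have h5 := h3 (Function.update y μ z) ((c : ℕ) * r + i) ((c : ℕ) * r + j) (by omega)
      (hidx c j hj)
    rw [ha1 i (by omega), ha1 j (by omega), hc1] at h5
    have h6 : ∀ i, i ≤ r → ext (Function.update y μ z) (m i) = if i = k c then z else ext y (m i) := by
      intro i hi
      simp only [hext]
      rw [dif_pos (hmM i hi), dif_pos (hmM i hi)]
      by_cases h7 : i = k c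
      · rw [if_pos h7]
        have h8 : (⟨m i, hmM i hi⟩ : Fin M) = μ := by
          apply Fin.ext
          have h9 : m i = m (k c) := congrArg m h7
          exact h9.trans hmk
        rw [h8, Function.update_self]
      · rw [if_neg h7, Function.update_of_ne]
        intro h8
        have h9 : m i = m (k c) := by
          rw [hmk]
          exact congrArg Fin.val h8
        rcases lt_trichotomy i (k c) with h10 | h10 | h10
        · have := hmono i (k c) h10 (hk c); omega
        · exact h7 h10
        · have := hmono (k c) i h10 hi; omega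
    rw [h6 i (by omega), h6 j hj] at h5
    exact h5

end Pool.Agent.helper890_cut
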